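import Pool.Agent.Q160.SG.Stm

/-!
Project SG (helper160), jobs PEEL and SEQ (written by helper96).
-/

set_option autoImplicit false

namespace Pool.Agent.Q96.SG

open Finset Pool.Agent.Q160.SG

lemma sum_insert_card {β : Type} [DecidableEq β] (x : β) (s : Finset β) (hx : x ∉ s) (n : ℕ)
    (f : Finset β → ℤ) : ∑ K ∈ (insert x s).powersetCard (n + 1), f K =
      ∑ K ∈ s.powersetCard (n + 1), f K + ∑ K ∈ s.powersetCard n, f (insert x K) := by
  rw [powersetCard_succ_insert hx, sum_union, sum_image]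
  · intro K hK K' hK' h
    have h1 : x ∉ K := fun h => hx ((mem_powersetCard.1 hK).1 h)
    have h2 : x ∉ K' := fun h => hx ((mem_powersetCard.1 hK').1 h)
    have h3 : insert x K = insert x K' := h
    rw [← erase_insert h1, h3, erase_insert h2]
  · rw [disjoint_left]
    intro K hK hK'
    obtain ⟨q, _, rfl⟩ := mem_image.1 hK'
    exact hx ((mem_powersetCard.1 hK).1 (mem_insert_self _ _))

theorem t_PEEL : J_V → J_PEEL := by
  intro hV z r m f
  obtain ⟨_, h2, h3, h4, _⟩ := hV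
  induction m with
  | zero =>
    have h5 : (V z 0).card < r + 2 := by
      have := h4 z
      omega
    rw [range_zero, sum_empty, powersetCard_eq_empty.2 h5, sum_empty]
  | succ m ih =>
    have ha : ((m : ℤ) + 1) ∉ V z m := by
      intro h
      have h5 := abs_le.1 (h3 z m _ h)
      omega
    have hb : (-((m : ℤ) + 1)) ∉ insert ((m : ℤ) + 1) (V z m) := by
      intro h
      rcases mem_insert.1 h with h | h
      · omega
      · have h5 := abs_le.1 (h3 z m _ h)
        omega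
    rw [sum_range_succ, ← ih, h2 z m, sum_insert_card _ _ hb (r + 1), sum_insert_card _ _ ha (r + 1),
      sum_insert_card _ _ ha r, sum_add_distrib]
    ring

lemma abs_sum_Ico (c : ℕ → ℤ) (C : ℤ) (h : ∀ j, |c j| ≤ C) (p q : ℕ) (hpq : p ≤ q) :
    |∑ j ∈ Ico p q, c j| ≤ C * ((q : ℤ) - p) := by
  refine (abs_sum_le_sum_abs _ _).trans ((sum_le_card_nsmul _ _ C fun j _ => h j).trans ?_)
  rw [Nat.card_Ico, nsmul_eq_mul, Nat.cast_sub hpq, mul_comm]

lemma gauss (m : ℕ) : ∀ k : ℕ, k ≤ m → ∑ j ∈ Ico (m - k) m, (2 * ((m : ℤ) - j)) = (k : ℤ) ^ 2 + k := by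
  intro k
  induction k with
  | zero =>
    intro _
    simp
  | succ k ih =>
    intro hk
    have h1 : m - (k + 1) < m := by omega
    rw [sum_eq_sum_Ico_succ_bot h1]
    have h2 : m - (k + 1) + 1 = m - k := by omega
    rw [h2, ih (by omega), Nat.cast_sub hk]
    push_cast
    ring

lemma gauss2 (i0 : ℕ) : ∀ m : ℕ, i0 ≤ m → ∑ j ∈ Ico i0 m, (2 * ((j : ℤ) - i0)) =
    ((m : ℤ) - i0) ^ 2 - ((m : ℤ) - i0) := by
  intro m hm
  induction m, hm using Nat.le_induction with
  | base => simp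
  | succ m hm ih =>
    rw [sum_Ico_succ_top hm, ih]
    push_cast
    ring

lemma sum_trunc (m i0 : ℕ) (N : ℤ) (k : ℕ) (hk : |N| = k) (hkm : k ≤ m - i0) (hi : i0 ≤ m) (g : ℕ → ℤ) :
    ∑ j ∈ Ico i0 m, trunc m N j * g j = N.sign * ∑ j ∈ Ico (m - k) m, g j := by
  have h1 : i0 ≤ m - k := by omega
  have h2 : m - k ≤ m := by omega
  rw [← sum_Ico_consecutive _ h1 h2]
  have h3 : ∑ j ∈ Ico i0 (m - k), trunc m N j * g j = 0 := by
    refine sum_eq_zero fun j hj => ?_
    have h4 := mem_Ico.1 hj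
    unfold trunc
    rw [if_neg, zero_mul]
    rw [hk]
    omega
  rw [h3, zero_add, mul_sum]
  refine sum_congr rfl fun j hj => ?_
  have h4 := mem_Ico.1 hj
  unfold trunc
  rw [if_pos]
  rw [hk]
  omega

theorem t_SEQ : J_SEQ := by
  intro m i0 a B N hi ha hB hN
  obtain ⟨k, hk⟩ : ∃ k : ℕ, |N| = k := ⟨N.natAbs, (Int.natCast_natAbs N).symm⟩
  have hkm : k ≤ m - i0 := by
    have h1 : |N| ≤ 1 * ((m : ℤ) - i0) := by
      rcases hN with h | h
      · rw [h]
        exact abs_sum_Ico a 1 ha i0 m hi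
      · rw [h]
        exact abs_sum_Ico B 1 hB i0 m hi
    rw [hk] at h1
    omega
  have hs : N.sign * (k : ℤ) = N := by
    rw [← hk]
    exact Int.sign_mul_abs N
  refine ⟨?_, ?_⟩
  · have h1 := sum_trunc m i0 N k hk hkm hi (fun _ => 1)
    simp only [mul_one] at h1
    rw [h1, sum_const, Nat.card_Ico, nsmul_eq_mul, mul_one, Nat.cast_sub (by omega), Nat.cast_sub (by omega)]
    rw [sub_sub_cancel]
    exact hs
  · obtain ⟨R, hR⟩ : ∃ R : ℕ → ℤ, R = fun j => ∑ i ∈ Ico i0 j, (a i + B i) := ⟨_, rfl⟩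
    have h1 : ∑ j ∈ Ico i0 m, ∑ i ∈ Ico i0 j, (2 - trunc m N j * (a i + B i)) =
        ∑ j ∈ Ico i0 m, (2 * ((j : ℤ) - i0)) - ∑ j ∈ Ico i0 m, trunc m N j * R j := by
      rw [← sum_sub_distrib]
      refine sum_congr rfl fun j hj => ?_
      rw [sum_sub_distrib, ← mul_sum, sum_const, Nat.card_Ico, nsmul_eq_mul, Nat.cast_sub (mem_Ico.1 hj).1, hR]
      ring
    have hRm : R m = (∑ j ∈ Ico i0 m, a j) + ∑ j ∈ Ico i0 m, B j := by
      rw [hR]
      exact sum_add_distrib
    have h2 : N * R m - N ^ 2 = (∑ j ∈ Ico i0 m, a j) * ∑ j ∈ Ico i0 m, B j := by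
      rw [hRm]
      rcases hN with h | h <;> rw [h] <;> ring
    have hsg : |N.sign| ≤ 1 := by
      rcases lt_trichotomy N 0 with h | h | h
      · rw [Int.sign_eq_neg_one_of_neg h]; norm_num
      · rw [h]; norm_num
      · rw [Int.sign_eq_one_of_pos h]; norm_num
    have h3 : ∀ j ∈ Ico (m - k) m, N.sign * R m - 2 * ((m : ℤ) - j) ≤ N.sign * R j := by
      intro j hj
      have h4 := mem_Ico.1 hj
      have h5 : R m = R j + ∑ i ∈ Ico j m, (a i + B i) := by
        rw [hR]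
        exact (sum_Ico_consecutive _ (by omega) (by omega)).symm
      have h6 : |∑ i ∈ Ico j m, (a i + B i)| ≤ 2 * ((m : ℤ) - j) :=
        abs_sum_Ico _ 2 (fun i => (abs_add_le _ _).trans (by linarith [ha i, hB i])) j m (by omega)
      have h7 : N.sign * ∑ i ∈ Ico j m, (a i + B i) ≤ 2 * ((m : ℤ) - j) := by
        refine (le_abs_self _).trans ?_
        rw [abs_mul]
        calc |N.sign| * |∑ i ∈ Ico j m, (a i + B i)| ≤ 1 * |∑ i ∈ Ico j m, (a i + B i)| :=
              mul_le_mul_of_nonneg_right hsg (abs_nonneg _)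
          _ ≤ 2 * ((m : ℤ) - j) := by rw [one_mul]; exact h6
      rw [h5, mul_add]
      linarith
    have h4 := sum_le_sum h3
    rw [sum_sub_distrib, gauss m k (by omega), sum_const, Nat.card_Ico, nsmul_eq_mul, ← mul_sum] at h4
    have h5 : ((m - (m - k) : ℕ) : ℤ) = k := by
      rw [Nat.sub_sub_self (by omega)]
    rw [h5, ← sum_trunc m i0 N k hk hkm hi R] at h4
    have h6 : (k : ℤ) * (N.sign * R m) = N * R m := by
      rw [← mul_assoc, mul_comm (k : ℤ), hs]
    have h7 : (k : ℤ) ^ 2 = N ^ 2 := by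
      rw [← hk, sq_abs]
    have h8 : (k : ℤ) ≤ (m : ℤ) - i0 := by omega
    rw [h1, gauss2 i0 m hi]
    rw [h6, h7] at h4
    linarith

end Pool.Agent.Q96.SG
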